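import Pool.Agent.MP7c139f.Upper

/-!
# MP_7c139f_co, Q1: a graph with `dgon (Γ(G)) = dgon (G)` and `dgon₂ (Γ(G)) < dgon₂ (G)`

There is a connected loopless multigraph `G` (14 vertices, 38 edges) with
`dgon (G) = dgon (Γ(G)) = 6`, `dgon₂ (Γ(G)) ≤ 11` and `dgon₂ (G) = 12`.

The graph is a one-vertex gluing of the complete graph `K₇` and of a graph `H` on 8 vertices with
`dgon (H) = 6` and `dgon (Γ(H)) = 5`.  All definitions are in `Pool.Agent.MP7c139f.Defs`.
-/

set_option autoImplicit false

namespace Pool.Agent.Results.MP_7c139f_co.HigherGonality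

open Pool.Agent.MP7c139f MultiGraph

/-- There is a finite connected multigraph whose first divisorial gonality equals that of its
metric graph (both are 6), and whose second divisorial gonality (which is 12) is strictly larger
than that of its metric graph. -/
theorem result :
    ∃ (n m : ℕ) (G : MultiGraph (Fin n) (Fin m)), G.Connected ∧
      G.IsDgon 1 6 ∧ G.IsMDgon 1 6 ∧
      ∃ d : ℕ, G.IsMDgon 2 d ∧ d < 12 ∧ G.IsDgon 2 12 :=
  ⟨14, edges.length, G₀, connected₀, isDgon_one, isMDgon_one, by
    obtain ⟨d, hd, hlt⟩ := isMDgon_two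
    exact ⟨d, hd, hlt, isDgon_two⟩⟩

end Pool.Agent.Results.MP_7c139f_co.HigherGonality
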